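import Mathlib

open Finset

namespace Pool.Agent.Results.MP_0a2cd2_co.Hyper

/-- Lists of size at least `k` with separation always admit a proper colouring. -/
def SepCh {n : ℕ} (H : Finset (Finset (Fin n))) (k : ℕ) : Prop :=
  ∀ L : Fin n → Finset ℕ, (∀ v, k ≤ (L v).card) →
    (∀ e ∈ H, ∀ u ∈ e, ∀ v ∈ e, u ≠ v → (L u ∩ L v).card ≤ 1) →
    ∃ φ : Fin n → ℕ, (∀ v, φ v ∈ L v) ∧ ∀ e ∈ H, ¬ ∃ c, ∀ v ∈ e, φ v = c

/-- Lists of size at least `k` always admit a colouring adapted to any edge colouring. -/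
def AdCh {n : ℕ} (H : Finset (Finset (Fin n))) (k : ℕ) : Prop :=
  ∀ L : Fin n → Finset ℕ, (∀ v, k ≤ (L v).card) → ∀ f : Finset (Fin n) → ℕ,
    ∃ φ : Fin n → ℕ, (∀ v, φ v ∈ L v) ∧ ∀ e ∈ H, ¬ ∀ v ∈ e, φ v = f e

lemma union_lb {n K : ℕ} (L : Fin n → Finset ℕ) (h1 : ∀ v, K ≤ (L v).card)
    (h2 : ∀ u v, u ≠ v → (L u ∩ L v).card ≤ 1) (s : Finset (Fin n)) :
    2 * s.card * K + s.card ≤ 2 * (s.biUnion L).card + s.card * s.card := by
  induction s using Finset.induction_on with
  | empty => simp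
  | insert v s hv ih =>
    rw [biUnion_insert, card_insert_of_notMem hv]
    have h3 := card_union_add_card_inter (L v) (s.biUnion L)
    have h4 : (L v ∩ s.biUnion L).card ≤ s.card * 1 := by
      rw [inter_biUnion]
      exact card_biUnion_le_card_mul _ _ _ (fun u hu => h2 v u (fun e => hv (e ▸ hu)))
    have := h1 v
    nlinarith

lemma rainbow {n r : ℕ} (hr : 2 ≤ r) {φ : Fin n → ℕ} (hφ : Function.Injective φ)
    {e : Finset (Fin n)} (he : e ∈ powersetCard r (univ : Finset (Fin n))) (c : ℕ) :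
    ¬ ∀ v ∈ e, φ v = c := by
  intro h
  obtain ⟨u, hu, v, hv, hne⟩ := one_lt_card.mp
    (show 1 < e.card by rw [(mem_powersetCard.mp he).2]; omega)
  exact hne (hφ ((h u hu).trans (h v hv).symm))

lemma sep_ub {n r K : ℕ} (hr : 2 ≤ r) (hn : r ≤ n) (hK : 2 * n ≤ K * K) :
    SepCh (powersetCard r (univ : Finset (Fin n))) K := by
  intro L h1 h2
  have h3 : ∀ u v, u ≠ v → (L u ∩ L v).card ≤ 1 := by
    intro u v hne
    obtain ⟨e, h4, h5, h6⟩ := exists_subsuperset_card_eq (subset_univ ({u, v} : Finset (Fin n)))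
      (show ({u, v} : Finset (Fin n)).card ≤ r by rw [card_pair hne]; exact hr) (by simpa using hn)
    exact h2 e (mem_powersetCard.mpr ⟨h5, h6⟩) u (h4 (by simp)) v (h4 (by simp)) hne
  obtain ⟨φ, hφ, hL⟩ := (all_card_le_biUnion_card_iff_exists_injective L).mp (by
    intro s
    by_cases hs : s.card ≤ K
    · rcases s.eq_empty_or_nonempty with rfl | ⟨v, hv⟩
      · simp
      · exact hs.trans ((h1 v).trans (card_le_card (subset_biUnion_of_mem L hv)))
    · obtain ⟨t, ht, hc⟩ := exists_subset_card_eq (show K ≤ s.card by omega)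
      have h4 := union_lb L h1 h3 t
      have h5 := card_le_card (biUnion_subset_biUnion_of_subset_left L ht)
      have h6 : s.card ≤ n := by simpa using card_le_univ s
      rw [hc] at h4
      nlinarith)
  exact ⟨φ, hL, fun e he ⟨c, hc⟩ => rainbow hr hφ he c hc⟩

lemma ad_ub {n r : ℕ} (hr : 2 ≤ r) : AdCh (powersetCard r (univ : Finset (Fin n))) n := by
  intro L h1 f
  obtain ⟨φ, hφ, hL⟩ := (all_card_le_biUnion_card_iff_exists_injective L).mp (by
    intro s
    rcases s.eq_empty_or_nonempty with rfl | ⟨v, hv⟩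
    · simp
    · have h6 : s.card ≤ n := by simpa using card_le_univ s
      exact h6.trans ((h1 v).trans (card_le_card (subset_biUnion_of_mem L hv))))
  exact ⟨φ, hL, fun e he => rainbow hr hφ he _⟩

lemma exists_colouring (n r s k : ℕ) (hk : 0 < k)
    (h : n ^ s * k * (k - 1) ^ s.choose r < k ^ s.choose r) :
    ∃ f : Finset (Fin n) → Fin k, ∀ S ∈ powersetCard s (univ : Finset (Fin n)), ∀ c,
      ∃ e ∈ powersetCard r S, f e = c := by
  by_contra hcon
  push Not at hcon
  let B : Finset (Fin n) × Fin k → Finset (Finset (Fin n) → Fin k) := fun p =>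
    Fintype.piFinset (fun e => if e ∈ powersetCard r p.1 then univ.erase p.2 else univ)
  have hsub : (univ : Finset (Finset (Fin n) → Fin k)) ⊆
      (powersetCard s (univ : Finset (Fin n)) ×ˢ (univ : Finset (Fin k))).biUnion B := by
    intro f _
    obtain ⟨S, hS, c, hc⟩ := hcon f
    refine mem_biUnion.mpr ⟨(S, c), mem_product.mpr ⟨hS, mem_univ _⟩, ?_⟩
    simp only [B, Fintype.mem_piFinset]
    intro e
    split_ifs with he
    · exact mem_erase.mpr ⟨hc e he, mem_univ _⟩
    · exact mem_univ _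
  obtain ⟨T, hT⟩ : ∃ T, T = Fintype.card (Finset (Fin n)) := ⟨_, rfl⟩
  by_cases hs : s ≤ n
  swap
  · obtain ⟨S, hS, -⟩ := hcon (fun _ => ⟨0, hk⟩)
    have := card_le_univ S
    rw [(mem_powersetCard.mp hS).2, Fintype.card_fin] at this
    exact hs this
  have hM : s.choose r ≤ T := by
    have := card_le_univ (powersetCard r (univ : Finset (Fin n)))
    rw [card_powersetCard, card_univ, Fintype.card_fin, ← hT] at this
    exact (Nat.choose_le_choose r hs).trans this
  have h1 := (card_le_card hsub).trans (card_biUnion_le_card_mul _ _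
    ((k - 1) ^ s.choose r * k ^ (T - s.choose r)) (by
      rintro ⟨S, c⟩ hp
      have hS := (mem_powersetCard.mp (mem_product.mp hp).1).2
      simp only at hS
      simp only [B, Fintype.card_piFinset, apply_ite card, card_erase_of_mem (mem_univ c),
        card_univ, Fintype.card_fin]
      rw [prod_ite, prod_const, prod_const, filter_mem_eq_inter, univ_inter, card_powersetCard, hS]
      have := card_filter_add_card_filter_not (s := (univ : Finset (Finset (Fin n))))
        (fun e => e ∈ powersetCard r S)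
      rw [filter_mem_eq_inter, univ_inter, card_powersetCard, hS, card_univ, ← hT] at this
      rw [show T - s.choose r = (filter (fun e => ¬ e ∈ powersetCard r S) univ).card by omega]))
  rw [card_univ, Fintype.card_fun, Fintype.card_fin, ← hT, card_product, card_powersetCard,
    card_univ, card_univ, Fintype.card_fin, Fintype.card_fin] at h1
  have h2 : k ^ T = k ^ s.choose r * k ^ (T - s.choose r) := by
    rw [← pow_add]; congr 1; omega
  rw [h2, ← mul_assoc] at h1
  have h3 := Nat.le_of_mul_le_mul_right h1 (by positivity)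
  have h4 : n.choose s * k * (k - 1) ^ s.choose r ≤ n ^ s * k * (k - 1) ^ s.choose r := by
    gcongr; exact Nat.choose_le_pow _ _
  omega

lemma ad_lb (r s k : ℕ) (hk : 0 < k)
    (h : (k * s) ^ s * k * (k - 1) ^ s.choose r < k ^ s.choose r) (j : ℕ)
    (hj : AdCh (powersetCard r (univ : Finset (Fin (k * s)))) j) : k < j := by
  by_contra hlt
  obtain ⟨f, hf⟩ := exists_colouring (k * s) r s k hk h
  obtain ⟨φ, h1, h2⟩ := hj (fun _ => range k) (fun _ => by simp; omega) (fun e => f e)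
  obtain ⟨c, hc, h3⟩ := exists_le_card_fiber_of_mul_le_card_of_maps_to (s := univ) (t := range k)
    (f := φ) (n := s) (fun v _ => h1 v) ⟨0, by simpa using hk⟩ (by simp)
  obtain ⟨S, h4, h5⟩ := exists_subset_card_eq h3
  obtain ⟨e, he, h6⟩ := hf S (mem_powersetCard.mpr ⟨subset_univ _, h5⟩) ⟨c, by simpa using hc⟩
  obtain ⟨h7, h8⟩ := mem_powersetCard.mp he
  refine h2 e (mem_powersetCard.mpr ⟨subset_univ _, h8⟩) (fun v hv => ?_)
  rw [h6]
  exact (mem_filter.mp (h4 (h7 hv))).2

lemma half_pow (k : ℕ) (hk : 0 < k) : 2 * (k - 1) ^ k ≤ k ^ k := by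
  obtain ⟨m, rfl⟩ : ∃ m, k = m + 1 := ⟨k - 1, by omega⟩
  have key : ∀ i, m ^ (i + 1) + (i + 1) * m ^ i ≤ (m + 1) ^ (i + 1) := by
    intro i
    induction i with
    | zero => simp
    | succ i ih =>
      calc m ^ (i + 1 + 1) + (i + 1 + 1) * m ^ (i + 1)
          ≤ (m ^ (i + 1) + (i + 1) * m ^ i) * (m + 1) := by
            simp only [pow_succ]; nlinarith [Nat.zero_le ((i + 1) * m ^ i)]
        _ ≤ _ := by rw [pow_succ (m + 1) (i + 1)]; exact Nat.mul_le_mul_right _ ih
  have := key m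
  simp only [Nat.add_sub_cancel, pow_succ] at this ⊢
  nlinarith [Nat.zero_le (m ^ m)]

lemma choose_mono (s r : ℕ) (hr : 3 ≤ r) (hs : r ≤ s / 2) : s.choose 3 ≤ s.choose r := by
  induction r, hr using Nat.le_induction with
  | base => exact le_rfl
  | succ r _ ih => exact (ih (by omega)).trans (Nat.choose_le_succ_of_lt_half_left (by omega))

lemma lin_le_pow (a : ℕ) (ha : 12 ≤ a) : 200 * a + 300 ≤ 2 ^ a := by
  induction a, ha using Nat.le_induction with
  | base => norm_num
  | succ a _ ih => rw [pow_succ]; omega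

lemma numeric (r a : ℕ) (hr : 3 ≤ r) (ha : 12 ≤ a) (hra : r ≤ a) :
    (4 * 2 ^ a * 2 ^ a) ^ 2 ^ a * (4 * 2 ^ a) * (4 * 2 ^ a - 1) ^ (2 ^ a).choose r <
      (4 * 2 ^ a) ^ (2 ^ a).choose r := by
  have h1 := lin_le_pow a ha
  have e1 : (4 * 2 ^ a * 2 ^ a) ^ 2 ^ a * (4 * 2 ^ a) = 2 ^ ((2 * a + 2) * 2 ^ a + (a + 2)) := by
    rw [pow_add, pow_mul]; congr 1
    · congr 1; ring
    · ring
  rw [e1]
  generalize 2 ^ a = s at *
  obtain ⟨j, hj⟩ : ∃ j, j = (2 * a + 2) * s + (a + 2) + 1 := ⟨_, rfl⟩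
  have h2 : 4 * s * j ≤ s.choose r := by
    refine le_trans ?_ (choose_mono s r hr (by omega))
    obtain ⟨t, rfl⟩ : ∃ t, s = t + 2 := ⟨s - 2, by omega⟩
    have e2 : 6 * (t + 2).choose 3 = (t + 2) * (t + 1) * t := by
      have := Nat.descFactorial_eq_factorial_mul_choose (t + 2) 3
      simp only [Nat.descFactorial_succ, Nat.descFactorial_zero, Nat.factorial] at this
      simp at this
      nlinarith
    have : 24 * j ≤ (t + 1) * t := by rw [hj]; nlinarith
    nlinarith
  obtain ⟨d, hd⟩ := Nat.exists_eq_add_of_le h2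
  have h3 := half_pow (4 * s) (by omega)
  have h4 : 2 ^ j * (4 * s - 1) ^ (4 * s * j) ≤ (4 * s) ^ (4 * s * j) := by
    rw [pow_mul _ (4 * s) j, pow_mul _ (4 * s) j, ← mul_pow]
    exact Nat.pow_le_pow_left h3 _
  have h5 : (4 * s - 1) ^ d ≤ (4 * s) ^ d := Nat.pow_le_pow_left (by omega) _
  have h6 : 0 < (4 * s - 1) ^ (4 * s * j + d) := Nat.pow_pos (by omega)
  rw [hd]
  calc _ < 2 ^ j * (4 * s - 1) ^ (4 * s * j + d) :=
        Nat.mul_lt_mul_of_pos_right (Nat.pow_lt_pow_right (by omega) (by omega)) h6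
    _ = (2 ^ j * (4 * s - 1) ^ (4 * s * j)) * (4 * s - 1) ^ d := by ring
    _ ≤ _ := by rw [pow_add]; exact Nat.mul_le_mul h4 h5

theorem result (r k : ℕ) (hr : 3 ≤ r) :
    ∃ (n : ℕ) (H : Finset (Finset (Fin n))), (∀ e ∈ H, e.card = r) ∧
      ∃ a b : ℕ, IsLeast {j | SepCh H j} a ∧ IsLeast {j | AdCh H j} b ∧ a + k ≤ b := by
  classical
  obtain ⟨a, ha⟩ : ∃ a, a = 12 + r + k := ⟨_, rfl⟩
  have h1 := lin_le_pow a (by omega)
  have h2 := numeric r a hr (by omega) (by omega)
  generalize 2 ^ a = s at *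
  have h3 : SepCh (powersetCard r (univ : Finset (Fin (4 * s * s)))) (3 * s) :=
    sep_ub (by omega) (by nlinarith) (by nlinarith)
  have e1 : ∃ j, SepCh (powersetCard r (univ : Finset (Fin (4 * s * s)))) j := ⟨_, h3⟩
  have e2 : ∃ j, AdCh (powersetCard r (univ : Finset (Fin (4 * s * s)))) j :=
    ⟨_, ad_ub (by omega)⟩
  refine ⟨4 * s * s, powersetCard r univ, fun e he => (mem_powersetCard.mp he).2,
    Nat.find e1, Nat.find e2, ⟨Nat.find_spec e1, fun j hj => Nat.find_min' e1 hj⟩,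
    ⟨Nat.find_spec e2, fun j hj => Nat.find_min' e2 hj⟩, ?_⟩
  have h4 := Nat.find_min' e1 h3
  have h5 := ad_lb r s (4 * s) (by omega) h2 _ (Nat.find_spec e2)
  omega

end Pool.Agent.Results.MP_0a2cd2_co.Hyper
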